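import Pool.Agent.helper80.EN.Spec4

/-!
# Row eb:BDC
-/

set_option autoImplicit false

namespace Pool.Agent.helper80.EN

open Subgroup

universe u

theorem BDC_inj {A B : Type u} [Group A] [Group B] (f : A →* B) (hf : Function.Injective f)
    (d : ℕ) (h : derivedSeries B d = ⊥) : derivedSeries A d = ⊥ := by
  have h1 := map_derivedSeries_le_derivedSeries f d
  rw [h, le_bot_iff] at h1
  exact (Subgroup.map_eq_bot_iff_of_injective _ hf).mp h1

theorem BDC (hT : TRF_stmt.{u}) : BDC_stmt.{u} := by
  refine ⟨?_, ?_, ?_⟩
  · intro G _ d e hde h H hH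
    have h1 : derivedSeries H e ≤ derivedSeries H d := derivedSeries_antitone H hde
    rw [h H hH, le_bot_iff] at h1
    exact h1
  · intro G H _ _ f hf d h K hK
    have h1 : LocNilp (K.map f) := (hT G).2.1 H f K hK
    exact BDC_inj (Subgroup.equivMapOfInjective K f hf).toMonoidHom
      (Subgroup.equivMapOfInjective K f hf).injective d (h _ h1)
  · intro G _ N _ d e hd he H hH
    have h1 : LocNilp (H.map (QuotientGroup.mk' N)) := (hT G).2.1 _ (QuotientGroup.mk' N) H hH
    have h2 := he _ h1
    have h3 : LocNilp (H.comap N.subtype) :=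
      (hT N).2.2.2.1 G N.subtype H N.subtype_injective hH
    have h4 := hd _ h3
    -- the restriction of the projection
    let φ : H →* H.map (QuotientGroup.mk' N) := (QuotientGroup.mk' N).subgroupMap H
    have h5 : ∀ x ∈ derivedSeries H e, (x : G) ∈ N := by
      intro x hx
      have h6 := map_derivedSeries_le_derivedSeries φ e
      rw [h2] at h6
      have h7 : φ x = 1 := Subgroup.mem_bot.mp (h6 (Subgroup.mem_map_of_mem φ hx))
      have h8 : QuotientGroup.mk' N (x : G) = 1 := congrArg Subtype.val h7
      exact (QuotientGroup.eq_one_iff (x : G)).mp h8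
    let j : (H.comap N.subtype : Subgroup N) →* G := N.subtype.comp (H.comap N.subtype).subtype
    have h9 : ∀ k : ℕ, (derivedSeries H (e + k)).map H.subtype ≤
        (derivedSeries (H.comap N.subtype : Subgroup N) k).map j := by
      intro k
      induction k with
      | zero =>
        rintro _ ⟨x, hx, rfl⟩
        have h10 : (x : G) ∈ N := h5 x hx
        refine ⟨⟨⟨(x : G), h10⟩, x.2⟩, ?_, rfl⟩
        exact Subgroup.mem_top _
      | succ k ih =>
        rw [← add_assoc, derivedSeries_succ, derivedSeries_succ, Subgroup.map_commutator,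
          Subgroup.map_commutator]
        exact Subgroup.commutator_mono ih ih
    have h11 := h9 d
    rw [h4, Subgroup.map_bot, le_bot_iff] at h11
    have h12 := (Subgroup.map_eq_bot_iff_of_injective _ H.subtype_injective).mp h11
    rw [add_comm]
    exact h12

end Pool.Agent.helper80.EN
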