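import Pool.Agent.helper80.EN.Spec2

/-!
# MP_43ab4e_al, row EBA
-/

set_option autoImplicit false

universe u

namespace Pool.Agent.helper80.EN

open Subgroup

theorem EBA (h1 : MAJ_stmt.{u}) : EBA_stmt.{u} := by
  intro G _ hG B a ha
  exact h1 B (InL.sub B.subtype B.subtype_injective hG) a ha

end Pool.Agent.helper80.EN
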